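import Pool.Agent.H762.TG.Main

/-!
# Slice sums of alternating knots with long series classes

Partial answer to Q1 of `MP_177a0e_gt`.

For a connected plane graph `G` the lattices `G.cuts` and `G.flows` are (up to sign) the
intersection forms of the two definite fillings of the double branched cover of the alternating
link `K(G)` with the Tait graph `G` (Gordon and Litherland). If the connected sum of `K(G)` with
the mirror image of `K(G')` is a slice knot, Donaldson's theorem gives `Embeds G G'` and
`Embeds G' G`. The theorem below determines all pairs of graphs with long series classes for which
both embeddings exist: these are the pairs of 2-isomorphic graphs, for which the alternating links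
are mutants of each other.

The graphs need not be planar or connected.
-/

set_option autoImplicit false

namespace Pool.Agent.Results.MP_177a0e_gt.LongTaitGraphs

open Pool.Agent.H762.TG

/-- Let `G` and `G'` be finite multigraphs without bridges, all of whose series classes have at
least two edges, such that no set of four edges which is a union of series classes is an even
subgraph. The lattices `G.cuts ⊕ G'.flows` and `G'.cuts ⊕ G.flows` both embed isometrically in
standard lattices of the same ranks if and only if a bijection between the sets of edges together
with a change of signs maps the integral flows of `G'` onto those of `G`. -/
theorem result {V E V' E' : Type} [Fintype V] [Fintype E] [DecidableEq V] [DecidableEq E]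
    [Fintype V'] [Fintype E'] [DecidableEq V'] [DecidableEq E']
    (G : Multigraph V E) (G' : Multigraph V' E') (hG : G.Long) (hG' : G'.Long) :
    (Embeds G G' ∧ Embeds G' G) ↔
      ∃ (σ : E ≃ E') (η : E → ℤˣ), ∀ x : E' → ℤ,
        G'.IsFlow x ↔ G.IsFlow (fun e => η e * x (σ e)) :=
  Multigraph.main G G' hG hG'

end Pool.Agent.Results.MP_177a0e_gt.LongTaitGraphs
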