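import Pool.Agent.H754.Opt.Embed

/-!
# Slice genus and ribbon genus of differences of special alternating knots

Partial answer to Q1 of `MP_177a0e_gt`.

Let `K = K(G)` and `K' = K(G')` be special alternating knots of the same sign with Tait graphs `G`
and `G'` (plane bipartite graphs without bridges, with an odd number of spanning trees, so that
`G.flows` is the symmetrised Seifert form), of genera `g ≥ g'`. The signature shows that the slice
genus of `K # -K'` is at least `g - g'`. Suppose that it is equal to `g - g'`, let `W` be the double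
branched cover of a cobordism of genus `g - g'` from `K'` to `K`, and `X` its union with the double
cover of the ball branched along a Seifert surface of `K'`. Then `X` is spin and definite of rank
`2 g`, its intersection form `B` contains `G'.flows`, and by Donaldson's theorem the orthogonal sum
of `B` and `G.cuts` is embedded in the standard lattice of rank `c(K)`; this is `Optimal G G'`.

**Theorem.** Suppose that each class of parallel edges of `G'` has at least three elements. Then
`Optimal G G'` holds if and only if `G'.flows` is contained in `G.flows` in the obvious way: there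
is an injection of the set of edges of `G'` in the set of edges of `G` which, with suitable signs,
maps flows to flows. In particular `c(K') ≤ c(K)`.

If `K'` is the sum of the torus knots `T(2, n i)` (`n i ≥ 3` odd) this means that the numbers `n i`
can be packed in the classes of parallel edges of `G` (the twist regions of `K` of this type). But
in this case `K'` is obtained from `K` by `2 (g - g')` oriented saddle moves (smoothing of crossings
and splitting of Seifert discs). So we have for all special alternating knots `K` and all sums `K'`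
of knots `T(2, n)` of the same sign: if the slice genus of `K # -K'` is `g - g'` then the ribbon
genus of `K # -K'` is `g - g'`; this holds exactly if the `n i` can be packed in the twist regions
of `K`. If this is not the case, but becomes so if one `n i` is replaced by two numbers with sum
`n i`, then both genera are equal to `g - g' + 1`.

If `K` is the torus knot `T(2, m)` and `K'` is arbitrary, with classes as in the theorem, then the
slice genus of `K # -K'` is `g - g'` if and only if `c(K') ≤ m`, and again this is the ribbon genus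
(all Seifert discs of `K'` of the same type can be joined by bands).
-/

set_option autoImplicit false

namespace Pool.Agent.Results.MP_177a0e_gt.OptimalCobordisms

open Pool.Agent.H762.TG
open scoped Matrix

/-- `G` has no bridges (every edge is in the support of a flow), is bipartite, and its lattice of
flows is nonsingular modulo two: a flow which has an even scalar product with all flows is twice a
flow. The last condition says that the determinant of the lattice of flows, which is the number of
spanning trees of `G` if `G` is connected, is odd. -/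
structure Special {V E : Type} [Fintype E] [DecidableEq V] (G : Multigraph V E) : Prop where
  /-- no edge is a bridge -/
  bridgeless : ∀ e, ∃ x, G.IsFlow x ∧ x e ≠ 0
  /-- the vertices can be coloured with two colours -/
  bipartite : ∃ c : V → Bool, ∀ e, c (G.src e) ≠ c (G.tgt e)
  /-- the determinant is odd -/
  odd : ∀ x, G.IsFlow x → (∀ y, G.IsFlow y → Even (x ⬝ᵥ y)) → ∃ z, G.IsFlow z ∧ x = (2 : ℤ) • z

/-- `e` and `f` have the same ends. -/
def Parallel {V E : Type} (G : Multigraph V E) (e f : E) : Prop :=
  (G.src e = G.src f ∧ G.tgt e = G.tgt f) ∨ (G.src e = G.tgt f ∧ G.tgt e = G.src f)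

/-- The lattice `B` is even and nonsingular modulo two. -/
def EvenOdd {κ : Type} [Fintype κ] (B : Submodule ℤ (κ → ℤ)) : Prop :=
  (∀ x ∈ B, Even (x ⬝ᵥ x)) ∧
    ∀ x ∈ B, (∀ y ∈ B, Even (x ⬝ᵥ y)) → ∃ z ∈ B, x = (2 : ℤ) • z

/-- There are an isometric embedding `φ` of the lattice of cuts of `G` in the standard lattice whose
rank is the number of edges of `G`, an even lattice `B`, nonsingular modulo two, of the rank of the
lattice of flows of `G` and orthogonal to the image of `φ`, and an isometric embedding `ψ` of the
lattice of flows of `G'` in `B`. -/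
def Optimal {V E V' E' : Type} [Fintype E] [Fintype E'] [DecidableEq V] [DecidableEq V']
    (G : Multigraph V E) (G' : Multigraph V' E') : Prop :=
  ∃ (B : Submodule ℤ (E → ℤ)) (φ : (E → ℤ) → E → ℤ) (ψ : (E' → ℤ) → E → ℤ),
    IsIsometry G.cuts φ ∧ Module.finrank ℤ B = G.nullity ∧ EvenOdd B ∧
      (∀ x ∈ G.cuts, ∀ y ∈ B, φ x ⬝ᵥ y = 0) ∧
      IsIsometry G'.flows ψ ∧ ∀ y ∈ G'.flows, ψ y ∈ B

/-- `τ` is an injective map from the set of edges of `G'` to the set of edges of `G` such that, for
suitable signs `η`, each integral flow of `G'` is mapped by `τ` (with values changed by `η`, and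
extended by zero) to an integral flow of `G`. -/
def MapsFlows {V E V' E' : Type} [Fintype E] [Fintype E'] [DecidableEq V] [DecidableEq V']
    [DecidableEq E] (G : Multigraph V E) (G' : Multigraph V' E') (τ : E' → E) : Prop :=
  Function.Injective τ ∧ ∃ η : E' → ℤˣ, ∀ x, G'.IsFlow x →
    G.IsFlow fun e => ∑ e' with τ e' = e, (η e' : ℤ) * x e'

/-- The Tait graph of the sum of the torus knots `T(2, n i)`: the disjoint union of `r` bundles, the
`i`-th bundle consists of `n i` parallel edges. -/
def bundles {r : ℕ} (n : Fin r → ℕ) : Multigraph (Fin r × Bool) ((i : Fin r) × Fin (n i)) where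
  src e := (e.1, false)
  tgt e := (e.1, true)

/-- The numbers `n i` can be packed in the classes of parallel edges of `G`: there are disjoint sets
of edges `{τ (i, k) | k}`, of size `n i`, each consisting of parallel edges. -/
def Packs {V E : Type} (G : Multigraph V E) {r : ℕ} (n : Fin r → ℕ) : Prop :=
  ∃ τ : ((i : Fin r) × Fin (n i)) → E, Function.Injective τ ∧
    ∀ i k l, Parallel G (τ ⟨i, k⟩) (τ ⟨i, l⟩)

section

open Finset Pool.Agent.H754.Special Pool.Agent.H754.Opt

variable {V E V' E' : Type} [Fintype V] [Fintype E] [DecidableEq V] [DecidableEq E]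
  [Fintype V'] [Fintype E'] [DecidableEq V'] [DecidableEq E']

theorem standard {G : Multigraph V E} {G' : Multigraph V' E'} (hG' : Special G')
    (h3 : ∀ e, 3 ≤ {f | Parallel G' e f}.ncard) (h : Optimal G G') :
    ∃ τ : E' → E, MapsFlows G G' τ := by
  obtain ⟨B, φ', ψ', h1, h2, ⟨h5, h6⟩, h7, h8, h9⟩ := h
  let φ : G.cuts →ₗ[ℤ] (E → ℤ) :=
    (AddMonoidHom.mk' (fun x : G.cuts => φ' x) (fun x y => (h1 x x.2 y y.2).1)).toIntLinearMap
  let ψ : G'.flows →ₗ[ℤ] B :=
    (AddMonoidHom.mk' (fun x : G'.flows => (⟨ψ' x, h9 x x.2⟩ : B))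
      (fun x y => Subtype.ext (h8 x x.2 y y.2).1)).toIntLinearMap
  let f : (G.cuts × B) →ₗ[ℤ] (E → ℤ) := φ.coprod B.subtype
  have e1 : ∀ x, f (x, 0) = φ' x := fun x => by
    change φ x + B.subtype 0 = _
    rw [map_zero, add_zero]
    rfl
  have e2 : ∀ y : B, f (0, y) = (y : E → ℤ) := fun y => by
    change φ 0 + B.subtype y = _
    rw [map_zero, zero_add]
    rfl
  have e3 : ∀ x (y : B), f (x, y) = f (x, 0) + f (0, y) := fun x y => by
    rw [← map_add]
    congr 1
    exact Prod.ext (add_zero x).symm (zero_add y).symm
  have ho : ∀ (x : G.cuts) (y : B), f (x, 0) ⬝ᵥ f (0, y) = 0 := fun x y => by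
    rw [e1, e2]
    exact h7 x x.2 y y.2
  have hg : ∀ a b : G.cuts, f (a, 0) ⬝ᵥ f (b, 0) = (a : E → ℤ) ⬝ᵥ (b : E → ℤ) := fun a b => by
    rw [e1, e1]
    exact (h1 a a.2 b b.2).2
  have hinj : Function.Injective f := by
    rw [← LinearMap.ker_eq_bot, LinearMap.ker_eq_bot']
    rintro ⟨x, y⟩ hxy
    rw [e3] at hxy
    have k1 : f (x, 0) ⬝ᵥ (f (x, 0) + f (0, y)) = 0 := by rw [hxy, dotProduct_zero]
    rw [dotProduct_add, ho, add_zero, hg] at k1
    have hx : x = 0 := Subtype.ext (eq_zero_of_dot k1)
    rw [hx] at hxy
    have k2 : f ((0 : G.cuts), (0 : B)) = 0 := map_zero f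
    rw [k2, zero_add, e2] at hxy
    have hy : y = 0 := Subtype.ext hxy
    rw [hx, hy]
    rfl
  obtain ⟨χ, hχ⟩ := exists_isometry G rfl f hinj (by
      rw [h2]
      exact G.finrank_add) hg ho (fun y => by
      rw [e2]
      exact h5 y y.2) (fun y hy => by
      obtain ⟨z, hz, hyz⟩ := h6 y y.2 fun w hw => by
        have := hy ⟨w, hw⟩
        rw [e2, e2] at this
        exact this
      exact ⟨⟨z, hz⟩, Subtype.ext hyz⟩)
  obtain ⟨c, hc⟩ := hG'.bipartite
  obtain ⟨τ, η, hτ, hv, hout⟩ := thick_standard (ι := E) hc hG'.odd h3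
    (G.flows.subtype ∘ₗ χ ∘ₗ ψ) (fun a b => by
      change (χ (ψ a) : E → ℤ) ⬝ᵥ (χ (ψ b) : E → ℤ) = _
      rw [hχ, e2, e2]
      exact (h8 a a.2 b b.2).2)
  refine ⟨τ, hτ, η, fun x hx => ?_⟩
  have k := eq_push hτ η (x := x) (y := (χ (ψ ⟨x, hx⟩) : E → ℤ)) (fun e' => hv ⟨x, hx⟩ e')
    (fun e he => hout ⟨x, hx⟩ e he)
  have k2 := (χ (ψ ⟨x, hx⟩)).2
  rw [k] at k2
  exact k2

omit [Fintype V'] in
theorem optimal_of {G : Multigraph V E} {G' : Multigraph V' E'} {c : V → Bool}
    (hc : ∀ e, c (G.src e) ≠ c (G.tgt e))
    (hod : ∀ x, G.IsFlow x → (∀ y, G.IsFlow y → Even (x ⬝ᵥ y)) →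
      ∃ z, G.IsFlow z ∧ x = (2 : ℤ) • z) {τ : E' → E} (h : MapsFlows G G' τ) : Optimal G G' := by
  obtain ⟨hτ, η, h⟩ := h
  refine ⟨G.flows, id, push τ η, fun x _ y _ => ⟨rfl, rfl⟩, rfl, ⟨fun x hx => even_norm G hc hx,
    fun x hx hy => hod x hx hy⟩, fun x hx y hy => G.cuts_dot_flows hx hy,
    fun x _ y _ => ⟨push_add τ η x y, push_dot hτ η x y⟩, fun y hy => h y hy⟩

end

/-- Let `G` be a finite bipartite multigraph without bridges and with an odd number of spanning
trees.

1. Let `G'` be a graph with the same properties in which each class of parallel edges has at least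
three elements. Then `Optimal G G'` holds if and only if there is an injective map from the set of
edges of `G'` to the set of edges of `G` which with suitable signs maps flows to flows.

2. Let `n i` be odd numbers, at least three. Then `Optimal G (bundles n)` holds if and only if the
numbers `n i` can be packed in the classes of parallel edges of `G`.

3. If each class of parallel edges of `G` has at least three elements and `m` is odd then
`Optimal (bundle of m edges) G` holds if and only if `G` has at most `m` edges. -/
theorem result {V E : Type} [Fintype V] [Fintype E] [DecidableEq V] [DecidableEq E]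
    (G : Multigraph V E) (hG : Special G) :
    (∀ {V' E' : Type} [Fintype V'] [Fintype E'] [DecidableEq V'] [DecidableEq E']
      (G' : Multigraph V' E'), Special G' → (∀ e, 3 ≤ {f | Parallel G' e f}.ncard) →
      (Optimal G G' ↔ ∃ τ, MapsFlows G G' τ)) ∧
    (∀ (r : ℕ) (n : Fin r → ℕ), (∀ i, Odd (n i) ∧ 3 ≤ n i) →
      (Optimal G (bundles n) ↔ Packs G n)) ∧
    ((∀ e, 3 ≤ {f | Parallel G e f}.ncard) → ∀ m : ℕ, Odd m →
      (Optimal (bundles fun _ : Fin 1 => m) G ↔ Fintype.card E ≤ m)) := by
  have hsp : ∀ (r : ℕ) (n : Fin r → ℕ), (∀ i, Odd (n i) ∧ 2 ≤ n i) → Special (bundles n) := by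
    intro r n hn
    exact ⟨Pool.Agent.H754.Opt.bundles_br fun i => (hn i).2,
      ⟨_, Pool.Agent.H754.Opt.bundles_bip⟩,
      fun x hx hy => Pool.Agent.H754.Opt.bundles_odd (fun i => (hn i).1) hx hy⟩
  have h1 : ∀ {V' E' : Type} [Fintype V'] [Fintype E'] [DecidableEq V'] [DecidableEq E']
      (G' : Multigraph V' E'), Special G' → (∀ e, 3 ≤ {f | Parallel G' e f}.ncard) →
      (Optimal G G' ↔ ∃ τ, MapsFlows G G' τ) := by
    intro V' E' _ _ _ _ G' hG' h3
    obtain ⟨c, hc⟩ := hG.bipartite
    exact ⟨standard hG' h3, fun ⟨τ, hτ⟩ => optimal_of hc hG.odd hτ⟩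
  refine ⟨h1, ?_, ?_⟩
  · intro r n hn
    obtain ⟨c, hc⟩ := hG.bipartite
    rw [h1 (bundles n) (hsp r n fun i => ⟨(hn i).1, by have := (hn i).2; omega⟩)
      (Pool.Agent.H754.Opt.bundles_thick fun i => (hn i).2)]
    exact ⟨fun ⟨τ, hτ, hη⟩ => ⟨τ, hτ, (Pool.Agent.H754.Opt.bundles_push hc hτ).1 hη⟩,
      fun ⟨τ, hτ, hp⟩ => ⟨τ, hτ, (Pool.Agent.H754.Opt.bundles_push hc hτ).2 hp⟩⟩
  · intro h3 m hm
    constructor
    · intro h
      obtain ⟨τ, hτ, -⟩ := standard hG h3 h
      have h2 := Fintype.card_le_of_injective τ hτ
      rwa [Fintype.card_sigma, Fintype.sum_unique, Fintype.card_fin] at h2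
    · intro hle
      obtain ⟨c, hc⟩ := hG.bipartite
      refine optimal_of Pool.Agent.H754.Opt.bundles_bip
        (fun x hx hy => Pool.Agent.H754.Opt.bundles_odd (fun _ => hm) hx hy)
        (τ := fun e => ⟨0, Fin.castLE hle (Fintype.equivFin E e)⟩)
        ⟨fun a b hab => (Fintype.equivFin E).injective (Fin.castLE_injective hle (by
          simpa using hab)), fun e => if c (G.src e) then 1 else -1, fun x hx => ?_⟩
      refine Pool.Agent.H754.Opt.bundles_flow.2 fun i => ?_
      have hi : i = 0 := Subsingleton.elim i 0
      subst hi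
      have h4 : ∑ e, (((if c (G.src e) then 1 else -1 : ℤˣ) : ℤ)) * x e = 0 := by
        have h5 := G.cuts_dot_flows
          (G.mem_cuts.2 ⟨fun v => if c v then 0 else 1, rfl⟩) hx
        rw [← h5, dotProduct]
        apply Finset.sum_congr rfl
        intro e _
        congr 1
        have h6 := hc e
        change _ = (if c (G.tgt e) then (0 : ℤ) else 1) - (if c (G.src e) then 0 else 1)
        cases h7 : c (G.src e) <;> cases h8 : c (G.tgt e) <;> rw [h7, h8] at h6 <;> simp at h6 ⊢
      rw [← h4, ← Finset.sum_fiberwise Finset.univ (fun e => Fin.castLE hle (Fintype.equivFin E e))]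
      apply Finset.sum_congr rfl
      intro k _
      apply Finset.sum_congr _ fun _ _ => rfl
      ext e
      simp

end Pool.Agent.Results.MP_177a0e_gt.OptimalCobordisms
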