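import Pool.Agent.H754.Pretzel.Hom
import Pool.Agent.H754.Pretzel.Emb

/-!
# The slice genus and the ribbon genus of sums of odd pretzel knots

Let `K` be the connected sum of odd pretzel knots `K_α = P(p_α1, …, p_αm, -q_α1, …, -q_αk)`, where
`m = m_α`, `k = k_α`, with `k_α > m_α` and `∑ 1 / p_αi < ∑ 1 / q_αj`. Its signature is `± 2 d` with
`2 d = ∑ (k_α - m_α - 1)`, so `g_4(K) ≥ d`. The double branched cover of `K` bounds the negative
definite plumbing `Black` (see `Pool/Agent/H754/Pretzel/Defs.lean`), of rank `∑ q_αj - 2 d`. If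
`g_4(K) = d`, the double branched cover of the four-ball along a surface of genus `d` with boundary
`K` is definite of rank `2 d`, and Donaldson's theorem gives an embedding of the plumbing lattice in
the negative definite standard lattice of rank `∑ q_αj` (`Embeds`). The theorem determines when there
is such an embedding.

Let `K = P(p, -q_01, …) # P(-q_11, …) # … # P(-q_n1, …)`, with only one positive parameter `p`. The
Seifert surface of `K` has genus `d + 1`, so `g_4(K)`, `g_r(K)` are `d` or `d + 1`. If `S` is a set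
of columns `(α, j)` which has an odd number of elements with `α = 0` and an even number of elements
with `α = β` for each `β ≠ 0`, and `p` is the sum of the `q_αj` with `(α, j)` in `S`, then the curve on
the Seifert surface which passes through the bands `p` and `-q_αj`, `(α, j)` in `S`, is an unknotted
curve with framing zero, and `g_r(K) = g_4(K) = d`. If `p` is not of the form `∑ a_αj ^ 2 q_αj` with
integers `a_αj` with the sum `1` for `α = 0` and `0` for `α ≠ 0`, then `g_r(K) = g_4(K) = d + 1`. So
`g_r(K) = g_4(K)` in both cases, and by the last statement of the theorem one of them holds if `p` is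
smaller than the numbers `4 q + q'` for different columns.
-/

set_option autoImplicit false

namespace Pool.Agent.Results.MP_177a0e_gt.PretzelRibbonGenus

open Matrix Pool.Agent.H754.Pretzel

/-- The plumbing lattice has a form-preserving map to the negative definite standard lattice of
rank `∑ q_αj` (an embedding if the form is nondegenerate). -/
def Embeds {n : ℕ} (m k : Fin n → ℕ) (p q : Fin n → ℕ → ℕ) : Prop :=
  ∃ V : Black m k q → Fin (∑ α, ∑ j : Fin (k α), q α j) → ℤ,
    ∀ x y, -(V x ⬝ᵥ V y) = blackForm m k p q x y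

open Finset

section

variable {n : ℕ} {m k : Fin n → ℕ} {p q : Fin n → ℕ → ℕ}

theorem card_black (hq : ∀ α (j : Fin (k α)), 3 ≤ q α j) (hk : ∀ α, m α < k α) :
    Nat.card (Black m k q) + ∑ α, (k α - m α - 1) = ∑ α, ∑ j : Fin (k α), q α j := by
  let f : Black m k q ≃ Fin n ⊕ (Σ c : Col k, Fin (q c.1 c.2 - 1)) ⊕ Col m :=
    { toFun := fun v => match v with
        | .centre α => Sum.inl α
        | .chain α j s => Sum.inr (Sum.inl ⟨⟨α, j⟩, s⟩)
        | .leaf α i => Sum.inr (Sum.inr ⟨α, i⟩)
      invFun := fun r => match r with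
        | Sum.inl α => .centre α
        | Sum.inr (Sum.inl ⟨⟨α, j⟩, s⟩) => .chain α j s
        | Sum.inr (Sum.inr ⟨α, i⟩) => .leaf α i
      left_inv := by rintro (_ | _ | _) <;> rfl
      right_inv := by rintro (_ | ⟨_, _⟩ | _) <;> rfl }
  rw [Nat.card_congr f]
  simp only [Nat.card_eq_fintype_card, Fintype.card_sum, Fintype.card_sigma, Fintype.card_fin]
  have h0 : ∑ x : Col k, (q x.1 x.2 - 1) = ∑ α, ∑ j : Fin (k α), (q α j - 1) :=
    Fintype.sum_sigma _
  rw [h0]
  have key : ∑ α, (1 + ∑ j : Fin (k α), (q α j - 1) + m α + (k α - m α - 1)) =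
      ∑ α, ∑ j : Fin (k α), q α j := by
    apply sum_congr rfl
    intro α _
    have h2 : ∑ j : Fin (k α), q α j = ∑ j : Fin (k α), (q α j - 1) + k α := by
      have : ∑ j : Fin (k α), q α j = ∑ j : Fin (k α), ((q α j - 1) + 1) := by
        apply sum_congr rfl
        intro j _
        have := hq α j
        omega
      rw [this, sum_add_distrib]
      simp
    have := hk α
    omega
  rw [sum_add_distrib, sum_add_distrib, sum_add_distrib] at key
  simp only [sum_const, card_univ, Fintype.card_fin, smul_eq_mul, mul_one] at key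
  omega

theorem embeds_iff (hq : ∀ α (j : Fin (k α)), 3 ≤ q α j ∧ q α j ≠ 4) :
    Embeds m k p q ↔ ∃ A : Col m → Col k → ℤ,
      (∀ i α, ∑ j : Fin (k α), A i ⟨α, j⟩ = if i.1 = α then 1 else 0) ∧
      ∀ i l, ∑ c, (q c.1 c.2 : ℤ) * A i c * A l c = if i = l then (p i.1 i.2 : ℤ) else 0 := by
  constructor
  · rintro ⟨V, hB⟩
    have hdot : ∀ x y, V x ⬝ᵥ V y = -blackForm m k p q x y := fun x y => by rw [← hB]; ring
    obtain ⟨c, v, hs, hc, hv, hv'⟩ := blackStars (p := p) V hB (fun α j => (hq α j).1)
    obtain ⟨F, hF1, hF2⟩ := hs.hom (fun j : Col k => (hq j.1 j.2).1)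
      (fun j : Col k => (hq j.1 j.2).2) (by
        rw [Fintype.card_fin]
        exact (Fintype.sum_sigma (fun c : Col k => q c.1 c.2)).symm)
    have hlv : ∀ (i : Col m) (j : Col k) s, s < q j.1 j.2 - 1 →
        v j s ⬝ᵥ V (.leaf i.1 i.2) = 0 := by
      intro i j s hs
      obtain ⟨x, hx, hx0⟩ := hv j s hs
      rw [hx, hdot, hx0]; rfl
    refine ⟨fun i => F (V (.leaf i.1 i.2)), fun i α => ?_, fun i l => ?_⟩
    · have h1 := hF2 (V (.leaf i.1 i.2)) (hlv i) α
      rw [hc, hdot] at h1
      simp only [blackForm] at h1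
      rw [sum_filter, Fintype.sum_sigma, sum_eq_single_of_mem α (mem_univ α)] at h1
      · have h2 : ∑ j : Fin (k α), (if ((⟨α, j⟩ : Col k)).1 = α then
            F (V (.leaf i.1 i.2)) ⟨α, j⟩ else 0) = ∑ j : Fin (k α), F (V (.leaf i.1 i.2)) ⟨α, j⟩ :=
          sum_congr rfl fun j _ => if_pos rfl
        rw [h2] at h1
        have h3 := neg_injective h1
        rw [← h3]
        by_cases h4 : α = i.1
        · rw [if_pos h4, if_pos h4.symm]
        · rw [if_neg h4, if_neg (fun h' => h4 h'.symm)]
      · intro β _ hβ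
        apply sum_eq_zero
        intro j _
        rw [if_neg hβ]
    · have h1 := hF1 (V (.leaf i.1 i.2)) (V (.leaf l.1 l.2)) (hlv i) (hlv l)
      rw [hdot] at h1
      refine Eq.trans (Eq.trans rfl h1.symm) ?_
      simp only [blackForm]
      obtain ⟨α, i⟩ := i
      obtain ⟨β, l⟩ := l
      simp only [col_eq]
      split_ifs <;> simp
  · rintro ⟨A, h1, h2⟩
    have h3 := bemb_form (p := p) (fun α j => (hq α j).1) A h1 h2
    have hcard : ∑ α, ∑ j : Fin (k α), q α j = ∑ c : Col k, q c.1 c.2 :=
      (Fintype.sum_sigma (fun c : Col k => q c.1 c.2)).symm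
    let E : Idx k q ≃ Fin (∑ α, ∑ j : Fin (k α), q α j) :=
      Fintype.equivFinOfCardEq (by
        rw [Fintype.card_sigma, hcard]
        exact sum_congr rfl fun c _ => Fintype.card_fin _)
    refine ⟨fun x t => bemb A x (E.symm t), fun x y => ?_⟩
    rw [← h3 x y]
    congr 1
    rw [dotProduct, dotProduct, ← E.symm.sum_comp]

theorem one_leaf (hq : ∀ α (j : Fin (k α)), 3 ≤ q α j ∧ q α j ≠ 4) (α₀ : Fin n)
    (hm : ∀ α, m α = if α = α₀ then 1 else 0)
    (hp : ∀ c c' : Col k, c ≠ c' → p α₀ 0 < 4 * q c.1 c.2 + q c'.1 c'.2) :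
    Embeds m k p q ↔ ∃ S : Finset (Col k),
      (∀ α, Odd (S.filter fun c => c.1 = α).card ↔ α = α₀) ∧ p α₀ 0 = ∑ c ∈ S, q c.1 c.2 := by
  rw [embeds_iff hq]
  have hm0 : m α₀ = 1 := by rw [hm, if_pos rfl]
  let i₀ : Col m := ⟨α₀, ⟨0, by omega⟩⟩
  have hi₀ : ∀ i : Col m, i = i₀ := by
    rintro ⟨α, i⟩
    have hi := i.2
    have h1 := hm α
    by_cases hα : α = α₀
    · rw [if_pos hα] at h1
      exact col_eq.2 ⟨hα, by change (i : ℕ) = 0; omega⟩
    · rw [if_neg hα] at h1
      omega
  have hfib : ∀ (g : Col k → ℤ) α, ∑ j : Fin (k α), g ⟨α, j⟩ =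
      ∑ c ∈ univ.filter (fun c : Col k => c.1 = α), g c := by
    intro g α
    rw [sum_filter, Fintype.sum_sigma, sum_eq_single_of_mem α (mem_univ α)]
    · exact sum_congr rfl fun j _ => (if_pos rfl).symm
    · intro β _ hβ
      apply sum_eq_zero
      intro j _
      rw [if_neg hβ]
  constructor
  · rintro ⟨A, h1, h2⟩
    set a := A i₀ with ha
    have hsum : ∀ α, ∑ c ∈ univ.filter (fun c : Col k => c.1 = α), a c =
        if α₀ = α then 1 else 0 := by
      intro α
      rw [← hfib]
      exact h1 i₀ α
    have hnorm : ∑ c, (q c.1 c.2 : ℤ) * a c * a c = p α₀ 0 := by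
      have := h2 i₀ i₀
      rw [if_pos rfl] at this
      exact this
    have hnn : ∀ c ∈ (univ : Finset (Col k)), 0 ≤ (q c.1 c.2 : ℤ) * a c * a c := fun c _ => by
      have : (q c.1 c.2 : ℤ) * a c * a c = q c.1 c.2 * (a c) ^ 2 := by ring
      rw [this]; positivity
    -- the entries are `0`, `1`, `-1`
    have hent : ∀ c, a c = 0 ∨ a c = 1 ∨ a c = -1 := by
      intro c
      by_contra hcon
      push Not at hcon
      have hc4 : 4 ≤ a c * a c := by
        rcases lt_trichotomy (a c) 0 with h | h | h
        · have : a c ≤ -2 := by have := hcon.2.2; omega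
          nlinarith
        · exact absurd h hcon.1
        · have : 2 ≤ a c := by have := hcon.2.1; omega
          nlinarith
      obtain ⟨c', hc', hc'0⟩ : ∃ c', c' ≠ c ∧ a c' ≠ 0 := by
        by_contra h3
        push Not at h3
        have h4 := hsum c.1
        rw [sum_eq_single_of_mem c (by rw [mem_filter]; exact ⟨mem_univ _, rfl⟩)
          (fun c' _ hc' => h3 c' hc')] at h4
        split_ifs at h4
        · exact hcon.2.1 h4
        · exact hcon.1 h4
      have h3 : ∑ x ∈ {c, c'}, (q x.1 x.2 : ℤ) * a x * a x ≤ p α₀ 0 := by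
        rw [← hnorm]
        exact sum_le_sum_of_subset_of_nonneg (subset_univ _) fun x hx _ => hnn x hx
      rw [sum_pair hc'.symm] at h3
      have h4 : (1 : ℤ) ≤ a c' * a c' := by
        rcases lt_or_gt_of_ne hc'0 with h | h <;> nlinarith
      have h5 : ((p α₀ 0 : ℕ) : ℤ) < 4 * q c.1 c.2 + q c'.1 c'.2 := by
        exact_mod_cast hp c c' hc'.symm
      have h6 : (0 : ℤ) ≤ q c.1 c.2 := by positivity
      have h7 : (0 : ℤ) ≤ q c'.1 c'.2 := by positivity
      have h8 : 4 * (q c.1 c.2 : ℤ) ≤ q c.1 c.2 * a c * a c := by nlinarith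
      have h9 : (q c'.1 c'.2 : ℤ) ≤ q c'.1 c'.2 * a c' * a c' := by nlinarith
      linarith
    refine ⟨univ.filter fun c => a c ≠ 0, fun α => ?_, ?_⟩
    · have h3 : ∑ c ∈ univ.filter (fun c : Col k => c.1 = α), a c * a c =
          (((univ.filter fun c => a c ≠ 0).filter fun c => c.1 = α).card : ℤ) := by
        rw [card_eq_sum_ones, filter_filter]
        push_cast
        rw [sum_filter, sum_filter]
        apply sum_congr rfl
        intro c _
        by_cases h4 : c.1 = α
        · rcases hent c with h | h | h <;> simp [h, h4]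
        · simp [h4]
      have h4 : Even (∑ c ∈ univ.filter (fun c : Col k => c.1 = α), a c * a c -
          ∑ c ∈ univ.filter (fun c : Col k => c.1 = α), a c) := by
        rw [← sum_sub_distrib]
        apply sum_induction _ Even (fun x y => Even.add) (by simp)
        intro c _
        rcases hent c with h | h | h <;> rw [h] <;> decide
      rw [h3, hsum α] at h4
      rw [← Int.odd_coe_nat]
      constructor
      · intro h5
        by_contra h6
        rw [if_neg (fun h' => h6 h'.symm), sub_zero] at h4
        exact (Int.not_odd_iff_even.2 h4) h5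
      · intro h5
        rw [if_pos h5.symm] at h4
        obtain ⟨z, hz⟩ := h4
        exact ⟨z, by linarith⟩
    · have h3 : ((p α₀ 0 : ℕ) : ℤ) = ((∑ c ∈ univ.filter (fun c => a c ≠ 0), q c.1 c.2 : ℕ) : ℤ) := by
        rw [← hnorm]
        push_cast
        rw [sum_filter]
        apply sum_congr rfl
        intro c _
        rcases hent c with h | h | h <;> simp [h]
      exact_mod_cast h3
  · rintro ⟨S, hS, hpS⟩
    have hT : ∀ α, ∃ T ⊆ S.filter (fun c => c.1 = α),
        T.card = ((S.filter fun c => c.1 = α).card + 1) / 2 := by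
      intro α
      by_cases h0 : (S.filter fun c => c.1 = α).card = 0
      · exact ⟨∅, by simp, by rw [h0]; simp⟩
      · exact exists_subset_card_eq (by omega)
    choose T hTS hTc using hT
    let a : Col k → ℤ := fun c => if c ∈ T c.1 then 1 else if c ∈ S then -1 else 0
    have haT : ∀ c, c ∈ T c.1 → c ∈ S := fun c hc => (mem_filter.1 (hTS c.1 hc)).1
    have hTα : ∀ α, ∀ c ∈ T α, c.1 = α := fun α c hc => (mem_filter.1 (hTS α hc)).2
    have hasq : ∀ c, a c * a c = if c ∈ S then 1 else 0 := by
      intro c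
      simp only [a]
      by_cases h1 : c ∈ T c.1
      · rw [if_pos h1, if_pos (haT c h1)]; norm_num
      · by_cases h2 : c ∈ S
        · rw [if_neg h1, if_pos h2, if_pos h2]; norm_num
        · rw [if_neg h1, if_neg h2, if_neg h2]; norm_num
    have hasum : ∀ α, ∑ c ∈ univ.filter (fun c : Col k => c.1 = α), a c =
        2 * ((T α).card : ℤ) - ((S.filter fun c => c.1 = α).card : ℤ) := by
      intro α
      have h1 : ∀ c ∈ univ.filter (fun c : Col k => c.1 = α), a c =
          2 * (if c ∈ T α then 1 else 0) - (if c ∈ S then 1 else 0) := by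
        intro c hc
        rw [mem_filter] at hc
        obtain ⟨_, rfl⟩ := hc
        simp only [a]
        by_cases h1 : c ∈ T c.1
        · rw [if_pos h1, if_pos h1, if_pos (haT c h1)]; norm_num
        · by_cases h2 : c ∈ S
          · rw [if_neg h1, if_pos h2, if_neg h1, if_pos h2]; norm_num
          · rw [if_neg h1, if_neg h2, if_neg h1, if_neg h2]; norm_num
      rw [sum_congr rfl h1, sum_sub_distrib, ← mul_sum]
      congr 1
      · congr 1
        rw [← sum_filter, sum_const, nsmul_eq_mul, mul_one]
        congr 2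
        ext c
        rw [mem_filter, mem_filter]
        exact ⟨fun h => h.2, fun h => ⟨⟨mem_univ _, hTα α c h⟩, h⟩⟩
      · rw [← sum_filter, sum_const, nsmul_eq_mul, mul_one]
        congr 2
        ext c
        rw [mem_filter, mem_filter, mem_filter]
        exact ⟨fun h => ⟨h.2, h.1.2⟩, fun h => ⟨⟨mem_univ _, h.2⟩, h.1⟩⟩
    refine ⟨fun _ => a, fun i α => ?_, fun i l => ?_⟩
    · rw [hi₀ i, hfib a α, hasum, hTc]
      change _ = if α₀ = α then 1 else 0
      by_cases hα : α = α₀
      · rw [if_pos hα.symm]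
        obtain ⟨z, hz⟩ := (hS α).2 hα
        rw [hz]
        have : (2 * z + 1 + 1) / 2 = z + 1 := by omega
        rw [this]
        push_cast
        ring
      · rw [if_neg (fun h => hα h.symm)]
        have h1 : ¬ Odd (S.filter fun c => c.1 = α).card := fun h => hα ((hS α).1 h)
        rw [Nat.not_odd_iff_even] at h1
        obtain ⟨z, hz⟩ := h1
        rw [hz]
        have : (z + z + 1) / 2 = z := by omega
        rw [this]
        push_cast
        ring
    · rw [hi₀ i, hi₀ l, if_pos rfl]
      change _ = ((p α₀ 0 : ℕ) : ℤ)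
      rw [hpS]
      push_cast
      rw [← sum_filter_add_sum_filter_not univ (fun c => c ∈ S)]
      have h1 : univ.filter (fun c => c ∈ S) = S := by ext; simp
      rw [h1]
      have h2 : ∑ c ∈ univ.filter (fun c => ¬ c ∈ S), (q c.1 c.2 : ℤ) * a c * a c = 0 := by
        apply sum_eq_zero
        intro c hc
        rw [mem_filter] at hc
        rw [mul_assoc, hasq, if_neg hc.2, mul_zero]
      rw [h2, add_zero]
      apply sum_congr rfl
      intro c hc
      rw [mul_assoc, hasq, if_pos hc, mul_one]

end

/-- Let `p_α1, …, p_αm`, `q_α1, …, q_αk` (`m = m_α`, `k = k_α`) be finitely many pairs of sequences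
with `q_αj ≥ 3`, `q_αj ≠ 4`.

(1) If `m_α < k_α` for all `α`, then the number of vertices of the plumbing trees is
`∑ q_αj - ∑ (k_α - m_α - 1)`.

(2) The plumbing lattice has an embedding in the standard lattice of rank `∑ q_αj` if and only if
there are integer vectors `A_i`, one for each leaf `i`, on the set of the columns `(α, j)`, whose
sum over the columns of `α` is `1` if `i` belongs to `α` and `0` otherwise, and which are orthogonal
and have the squares `p_i` for the diagonal form with the coefficients `q_αj`.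

(3) If there is only one leaf, in `α₀` and with the weight `p`, and `p < 4 q + q'` for all different
columns, this is so if and only if `p` is the sum of the `q_αj` over a set of columns which contains
an odd number of columns of `α₀` and an even number of columns of each other `α`. -/
theorem result (n : ℕ) (m k : Fin n → ℕ) (p q : Fin n → ℕ → ℕ)
    (hq : ∀ α (j : Fin (k α)), 3 ≤ q α j ∧ q α j ≠ 4) :
    ((∀ α, m α < k α) →
      Nat.card (Black m k q) + ∑ α, (k α - m α - 1) = ∑ α, ∑ j : Fin (k α), q α j) ∧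
    (Embeds m k p q ↔ ∃ A : (Σ α, Fin (m α)) → (Σ α, Fin (k α)) → ℤ,
      (∀ i α, ∑ j : Fin (k α), A i ⟨α, j⟩ = if i.1 = α then 1 else 0) ∧
      ∀ i l, ∑ c, (q c.1 c.2 : ℤ) * A i c * A l c = if i = l then (p i.1 i.2 : ℤ) else 0) ∧
    ∀ α₀, (∀ α, m α = if α = α₀ then 1 else 0) →
      (∀ c c' : Σ α, Fin (k α), c ≠ c' → p α₀ 0 < 4 * q c.1 c.2 + q c'.1 c'.2) →
      (Embeds m k p q ↔ ∃ S : Finset (Σ α, Fin (k α)),
        (∀ α, Odd (S.filter fun c => c.1 = α).card ↔ α = α₀) ∧
          p α₀ 0 = ∑ c ∈ S, q c.1 c.2) :=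
  ⟨fun hk => card_black (fun α j => (hq α j).1) hk, embeds_iff hq, fun α₀ hm hp =>
    one_leaf hq α₀ hm hp⟩

end Pool.Agent.Results.MP_177a0e_gt.PretzelRibbonGenus
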