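import Pool.Agent.H754.Pretzel.WhiteLat

/-!
# Slice sums of odd pretzel knots are mutant ribbon

Let `K_α = P(p_α1, …, p_αm, -q_α1, …, -q_αk)`, where `m = m_α`, `k = k_α`, be odd pretzel knots with
`k_α > m_α` and `∑ 1 / p_αi < ∑ 1 / q_αj` (the case `m_α = 0` is the one of the negative pretzel
knots), let `K'_β = P(r_β1, …, r_βn)` be positive odd pretzel knots, and let `K` be the connected sum
of all `K_α` and all `K'_β`. The double branched cover of `K_α` bounds the negative definite plumbing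
`Black`, the one of `K'_β` bounds a manifold with the negative definite Goeritz form `White` (see
`Pool/Agent/H754/Pretzel/Defs.lean`), and both are sharp (Ozsváth and Szabó).

If `K` is slice, its signature is zero, which is the condition `hsig`, and its double branched cover
bounds a rational homology ball; by Donaldson's theorem and by the formula for the correction terms
the sum of these lattices is embedded in the negative definite standard lattice of the same rank in
such a way that each characteristic vector is congruent modulo `2 Λ` (`Λ` the image) to a vector all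
whose entries are `1` or `-1` (`Admissible`; the condition used by Greene and Jabuka).

The theorem says that then for each `α` the `p_αi` are `m_α` of the numbers `q_α1, …, q_αk`, and that
the families of the remaining `q_αj`, for the `α` with `k_α ≥ m_α + 3`, are up to order the families
`(r_βl)`. So `K` is a mutant of a ribbon knot: up to mutation the ribbon genus is equal to the slice
genus for all these sums `K` with `g_4(K) = 0`.
-/

set_option autoImplicit false

namespace Pool.Agent.Results.MP_177a0e_gt.PretzelSums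

open Matrix Pool.Agent.H754.Pretzel

/-- The number of vertices of the plumbing trees and of generators of the Goeritz lattices. -/
def rank {n n' : ℕ} (m k : Fin n → ℕ) (q : Fin n → ℕ → ℕ) (k' : Fin n' → ℕ) : ℕ :=
  ∑ α, (1 + ∑ j : Fin (k α), (q α j - 1) + m α) + ∑ β, (k' β - 1)

/-- The orthogonal sum of the lattices `Black` and `White` has an embedding in the negative definite
standard lattice of the same rank such that each characteristic vector (all entries odd) is congruent
modulo twice the image of the lattice to a vector with entries `1` and `-1`. -/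
def Admissible {n n' : ℕ} (m k : Fin n → ℕ) (p q : Fin n → ℕ → ℕ) (k' : Fin n' → ℕ)
    (r : Fin n' → ℕ → ℕ) : Prop :=
  ∃ V : Black m k q ⊕ White k' → Fin (rank m k q k') → ℤ,
    (∀ x y, -(V (.inl x) ⬝ᵥ V (.inl y)) = blackForm m k p q x y) ∧
    (∀ x y, -(V (.inr x) ⬝ᵥ V (.inr y)) = whiteForm k' r x y) ∧
    (∀ x y, V (.inl x) ⬝ᵥ V (.inr y) = 0) ∧
    ∀ x : Fin (rank m k q k') → ℤ, (∀ t, Odd (x t)) →
      ∃ e : Fin (rank m k q k') → ℤ, (∀ t, e t = 1 ∨ e t = -1) ∧
        ∃ l ∈ AddSubgroup.closure (Set.range V), x = e + 2 • l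

open Finset

section

variable {n n' : ℕ} {m k : Fin n → ℕ} {p q : Fin n → ℕ → ℕ} {k' : Fin n' → ℕ} {r : Fin n' → ℕ → ℕ}

theorem rank_eq (hq : ∀ α (j : Fin (k α)), 3 ≤ q α j) (hk : ∀ α, m α + 1 ≤ k α)
    (hsig : ∑ α, (k α - m α - 1) = ∑ β, (k' β - 1)) :
    rank m k q k' = ∑ j : Col k, q j.1 j.2 := by
  unfold rank
  have h0 : ∑ j : Col k, q j.1 j.2 = ∑ α, ∑ j : Fin (k α), q α j := Fintype.sum_sigma _
  rw [h0, ← hsig, ← sum_add_distrib]
  apply sum_congr rfl
  intro α _
  have h2 : ∑ j : Fin (k α), q α j = ∑ j : Fin (k α), (q α j - 1) + k α := by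
    have : ∑ j : Fin (k α), q α j = ∑ j : Fin (k α), ((q α j - 1) + 1) := by
      apply sum_congr rfl
      intro j _
      have := hq α j
      omega
    rw [this, sum_add_distrib]
    simp
  have := hk α
  omega

/-- the leaves -/
abbrev Row (m : Fin n → ℕ) : Type := Σ α : Fin n, Fin (m α)

/-- The columns which are not matched, in the stars with at least three of them. -/
theorem forward (hk : ∀ α, k α = m α + 1 ∨ m α + 3 ≤ k α) (hk' : ∀ β, 3 ≤ k' β)
    (hq : ∀ α (j : Fin (k α)), 3 ≤ q α j ∧ q α j ≠ 4) (hr : ∀ β (l : Fin (k' β)), 0 < r β l)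
    (hA : ∀ α, ∑ i : Fin (m α), 1 / (p α i : ℚ) < ∑ j : Fin (k α), 1 / (q α j : ℚ))
    (hsig : ∑ α, (k α - m α - 1) = ∑ β, (k' β - 1)) (h : Admissible m k p q k' r) :
    ∃ σ : Row m → Col k, Function.Injective σ ∧
      (∀ x, (σ x).1 = x.1 ∧ p x.1 x.2 = q (σ x).1 (σ x).2) ∧
      ∃ π : Fin n' ≃ {α // m α + 3 ≤ k α}, ∀ β,
        ∃ ρ : {c : Col k' // c.1 = β} ≃ {c : Col k // c.1 = π β ∧ c ∉ Set.range σ},
          ∀ c : {c : Col k' // c.1 = β}, r c.1.1 c.1.2 = q (ρ c).1.1 (ρ c).1.2 := by
  classical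
  obtain ⟨V, hB, hW, hO, hcov⟩ := h
  have hdotB : ∀ x y, V (.inl x) ⬝ᵥ V (.inl y) = -blackForm m k p q x y := fun x y => by
    rw [← hB]; ring
  obtain ⟨c, v, hs, hc, hv, hv'⟩ := blackStars (p := p) (fun x => V (.inl x)) hB
    (fun α j => (hq α j).1)
  -- the additional lattice
  set U : AddSubgroup (Fin (rank m k q k') → ℤ) :=
    AddSubgroup.closure (Set.range fun y => V (.inr y)) with hU
  have horthU : ∀ z u, u ∈ U → V (.inl z) ⬝ᵥ u = 0 := by
    intro z u hu
    refine AddSubgroup.closure_induction (p := fun u _ => V (.inl z) ⬝ᵥ u = 0) ?_ ?_ ?_ ?_ hu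
    · rintro _ ⟨y, rfl⟩
      exact hO z y
    · exact dotProduct_zero _
    · intro x y _ _ hx hy
      rw [dotProduct_add, hx, hy, add_zero]
    · intro x _ hx
      rw [dotProduct_neg, hx, neg_zero]
  have hwc : ∀ (i : Row m) α, V (.inl (.leaf i.1 i.2)) ⬝ᵥ c α = if i.1 = α then -1 else 0 := by
    intro i α
    rw [hc, hdotB]
    simp only [blackForm]
    by_cases h1 : α = i.1
    · rw [if_pos h1, if_pos h1.symm]
    · rw [if_neg h1, if_neg (fun h' => h1 h'.symm)]; rfl
  have hww : ∀ i : Row m, V (.inl (.leaf i.1 i.2)) ⬝ᵥ V (.inl (.leaf i.1 i.2)) = p i.1 i.2 := by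
    intro i
    rw [hdotB]
    simp [blackForm]
  obtain ⟨F, hFw, hFu, hCov⟩ := hs.covSystem (fun j : Col k => (hq j.1 j.2).1)
    (fun j : Col k => (hq j.1 j.2).2)
    (by rw [Fintype.card_fin]
        exact rank_eq (fun α j => (hq α j).1) (fun α => by have := hk α; omega) hsig)
    (lf := fun i : Row m => i.1) (w := fun i : Row m => V (.inl (.leaf i.1 i.2))) (U := U)
    (fun i j s hs => by
      obtain ⟨x, hx, hx0⟩ := hv j s hs
      rw [hx, hdotB, hx0]; rfl)
    hwc
    (fun i l hil => by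
      rw [hdotB]
      simp only [blackForm]
      rw [if_neg]
      · rfl
      · rintro ⟨h1, h2⟩
        apply hil
        obtain ⟨α, i⟩ := i
        obtain ⟨β, l⟩ := l
        simp only at h1 h2
        subst h1
        rw [Fin.ext h2])
    (fun u hu j s hs => by
      obtain ⟨x, hx, _⟩ := hv j s hs
      rw [hx]
      exact horthU x u hu)
    (fun u hu α => by rw [hc]; exact horthU _ u hu)
    (fun u hu i => horthU _ u hu)
    (AddSubgroup.closure (Set.range V))
    (by
      apply (AddSubgroup.closure_le _).2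
      rintro _ ⟨x | y, rfl⟩
      · apply AddSubgroup.subset_closure
        left
        rcases x with α | ⟨α, j, s⟩ | ⟨α, i⟩
        · exact Or.inl (Or.inl ⟨α, hc α⟩)
        · exact Or.inl (Or.inr ⟨⟨α, j⟩, s, s.2, hv' α j s⟩)
        · exact Or.inr ⟨⟨α, i⟩, rfl⟩
      · apply AddSubgroup.subset_closure
        right
        exact AddSubgroup.subset_closure ⟨y, rfl⟩)
    hcov
    (fun α => by
      have e1 : ∑ i ∈ univ.filter (fun i : Row m => i.1 = α),
          1 / ((V (.inl (.leaf i.1 i.2)) ⬝ᵥ V (.inl (.leaf i.1 i.2)) : ℤ) : ℚ) =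
          ∑ i : Fin (m α), 1 / (p α i : ℚ) := by
        rw [sum_filter, Fintype.sum_sigma, sum_eq_single_of_mem α (mem_univ α)]
        · apply sum_congr rfl
          intro i _
          rw [if_pos rfl, hww ⟨α, i⟩]
          simp
        · intro β _ hβ
          apply sum_eq_zero
          intro i _
          rw [if_neg hβ]
      have e2 : ∑ j ∈ univ.filter (fun j : Col k => j.1 = α), 1 / ((q j.1 j.2 : ℕ) : ℚ) =
          ∑ j : Fin (k α), 1 / (q α j : ℚ) := by
        rw [sum_filter, Fintype.sum_sigma, sum_eq_single_of_mem α (mem_univ α)]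
        · apply sum_congr rfl
          intro i _
          rw [if_pos rfl]
        · intro β _ hβ
          apply sum_eq_zero
          intro i _
          rw [if_neg hβ]
      rw [e1, e2]
      exact hA α)
    (fun α => by
      rw [card_fiber k α, card_fiber m α]
      have := hk α
      omega)
  obtain ⟨σ, hσ, hσ1, hN⟩ := hCov.solve
  have qpos : ∀ j : Col k, 0 < q j.1 j.2 := fun j => by have := (hq j.1 j.2).1; omega
  have rpos : ∀ l : Col k', 0 < r l.1 l.2 := fun l => hr l.1 l.2
  refine ⟨σ, hσ, fun x => ⟨(hσ1 x).1, ?_⟩, ?_⟩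
  · have h1 := hFw x x
    rw [hww x, (hσ1 x).2, bil_single, Pi.single_eq_same, mul_one] at h1
    exact_mod_cast h1
  -- the vector of a flow
  let Φ : (Col k' → ℤ) →+ (Fin (rank m k q k') → ℤ) :=
    { toFun := fun x => ∑ y : White k', psum k' x y.1 y.2 • V (.inr y)
      map_zero' := by
        apply sum_eq_zero
        intro y _
        rw [psum_zero, zero_smul]
      map_add' := by
        intro x x'
        rw [← sum_add_distrib]
        apply sum_congr rfl
        intro y _
        rw [← add_smul, psum_add] }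
  have hΦ : ∀ x, Φ x = ∑ y : White k', psum k' x y.1 y.2 • V (.inr y) := fun x => rfl
  have hΦU : ∀ x, Φ x ∈ U := fun x =>
    U.sum_mem fun y _ => U.zsmul_mem (AddSubgroup.subset_closure ⟨y, rfl⟩) _
  have hΦgen : ∀ y, Φ (gen k' y) = V (.inr y) := by
    intro y
    rw [hΦ, sum_eq_single_of_mem y (mem_univ y)]
    · rw [psum_gen, if_pos rfl, one_smul]
    · intro z _ hz
      rw [psum_gen, if_neg (fun h' => hz h'.symm), zero_smul]
  have hΦdot : ∀ x x' : Col k' → ℤ, x ∈ flow (fun j : Col k' => j.1) →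
      x' ∈ flow (fun j : Col k' => j.1) →
      Φ x ⬝ᵥ Φ x' = bil (fun j : Col k' => r j.1 j.2) x x' := by
    intro x x' hx hx'
    have h1 : bil (fun j : Col k' => r j.1 j.2) x x' =
        ∑ y : White k', ∑ y' : White k', psum k' x y.1 y.2 * psum k' x' y'.1 y'.2 *
          bil (fun j : Col k' => r j.1 j.2) (gen k' y) (gen k' y') := by
      conv_lhs => rw [flow_eq x hx, flow_eq x' hx']
      unfold bil
      simp only [Finset.sum_apply, Pi.smul_apply, smul_eq_mul, mul_sum, sum_mul]
      rw [sum_comm]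
      rw [sum_congr rfl fun y _ => sum_comm]
      rw [sum_comm]
      apply sum_congr rfl
      intro y _
      apply sum_congr rfl
      intro y' _
      apply sum_congr rfl
      intro j _
      ring
    rw [h1, hΦ, hΦ, sum_dotProduct]
    apply sum_congr rfl
    intro y _
    rw [dotProduct_sum]
    apply sum_congr rfl
    intro y' _
    rw [smul_dotProduct, dotProduct_smul, bil_gen, ← hW]
    simp only [smul_eq_mul]
    ring
  -- the columns which are not matched
  set J' := {j : Col k // j ∉ Set.range σ ∧ m j.1 + 3 ≤ k j.1} with hJ'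
  let st' : J' → {α // m α + 3 ≤ k α} := fun j => ⟨j.1.1, j.2.2⟩
  -- the number of columns which are not matched
  have hcardU : ∀ α, (univ.filter fun j : Col k => j.1 = α ∧ j ∉ Set.range σ).card =
      k α - m α := by
    intro α
    have h1 : univ.filter (fun j : Col k => j.1 = α ∧ j ∉ Set.range σ) =
        (univ.filter fun j : Col k => j.1 = α) \
          (univ.filter fun i : Row m => i.1 = α).image σ := by
      ext j
      rw [mem_sdiff, mem_filter, mem_filter, mem_image]
      constructor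
      · rintro ⟨h1, h2, h3⟩
        exact ⟨⟨h1, h2⟩, fun ⟨i, _, hi⟩ => h3 ⟨i, hi⟩⟩
      · rintro ⟨⟨h1, h2⟩, h3⟩
        refine ⟨h1, h2, fun ⟨i, hi⟩ => h3 ⟨i, ?_, hi⟩⟩
        rw [mem_filter]
        refine ⟨mem_univ _, ?_⟩
        rw [← (hσ1 i).1, hi]
        exact h2
    rw [h1, card_sdiff_of_subset, card_image_of_injective _ hσ, card_fiber, card_fiber]
    intro j hj
    obtain ⟨i, hi, rfl⟩ := mem_image.1 hj
    rw [mem_filter] at hi ⊢
    exact ⟨mem_univ _, (hσ1 i).1.trans hi.2⟩
  -- the vectors of `N` vanish outside the columns in `J'`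
  have hvan : ∀ x, x ∈ U.map F → ∀ j : Col k, ¬ (j ∉ Set.range σ ∧ m j.1 + 3 ≤ k j.1) →
      x j = 0 := by
    intro x hx j hj
    obtain ⟨hx1, hx2⟩ := (hN x).1 hx
    by_cases h1 : j ∈ Set.range σ
    · obtain ⟨i, rfl⟩ := h1
      exact hx2 i
    · have h2 : k j.1 = m j.1 + 1 := by
        rcases hk j.1 with h3 | h3
        · exact h3
        · exact absurd ⟨h1, h3⟩ hj
      have h3 := hx1 j.1
      have h4 : ∑ l ∈ univ.filter (fun l : Col k => l.1 = j.1), x l =
          ∑ l ∈ univ.filter (fun l : Col k => l.1 = j.1 ∧ l ∉ Set.range σ), x l := by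
        symm
        apply sum_subset
        · intro l hl
          rw [mem_filter] at hl ⊢
          exact ⟨hl.1, hl.2.1⟩
        · intro l hl hl'
          rw [mem_filter] at hl hl'
          have : l ∈ Set.range σ := by
            by_contra h5
            exact hl' ⟨hl.1, hl.2, h5⟩
          obtain ⟨i, rfl⟩ := this
          exact hx2 i
      have h5 := hcardU j.1
      rw [h2] at h5
      have h6 : m j.1 + 1 - m j.1 = 1 := by omega
      rw [h6, card_eq_one] at h5
      obtain ⟨l, hl⟩ := h5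
      have h7 : j ∈ univ.filter (fun l : Col k => l.1 = j.1 ∧ l ∉ Set.range σ) := by
        rw [mem_filter]; exact ⟨mem_univ _, rfl, h1⟩
      rw [hl, mem_singleton] at h7
      rw [h4, hl, sum_singleton, ← h7] at h3
      exact h3
  have hsumJ : ∀ g : Col k → ℤ, (∀ j : Col k, ¬ (j ∉ Set.range σ ∧ m j.1 + 3 ≤ k j.1) → g j = 0) →
      ∑ j : J', g j = ∑ j, g j := by
    intro g hg
    rw [← Fintype.sum_subtype_add_sum_subtype
      (fun j : Col k => j ∉ Set.range σ ∧ m j.1 + 3 ≤ k j.1) g]
    have : ∑ j : {j : Col k // ¬ (j ∉ Set.range σ ∧ m j.1 + 3 ≤ k j.1)}, g j = 0 := by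
      apply sum_eq_zero
      rintro ⟨j, hj⟩ _
      exact hg j hj
    rw [this, add_zero]
  have hres : ∀ x, x ∈ U.map F → (fun j : J' => x j) ∈ flow st' := by
    intro x hx α
    have h1 := ((hN x).1 hx).1 α
    rw [sum_filter] at h1 ⊢
    refine Eq.trans ?_ h1
    rw [← hsumJ (fun j => if j.1 = α.1 then x j else 0)]
    · apply sum_congr rfl
      intro j _
      by_cases h2 : j.1.1 = α.1
      · rw [if_pos h2, if_pos (Subtype.ext h2)]
      · rw [if_neg h2, if_neg (fun h' => h2 (congrArg Subtype.val h'))]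
    · intro j hj
      rw [hvan x hx j hj]
      split_ifs <;> rfl
  let φ : flow (fun j : Col k' => j.1) →+ flow st' :=
    { toFun := fun x => ⟨fun j => F (Φ x) j, hres _ (AddSubgroup.mem_map_of_mem F (hΦU x))⟩
      map_zero' := by
        apply Subtype.ext
        ext j
        change F (Φ ((0 : flow (fun j : Col k' => j.1)) : Col k' → ℤ)) j = 0
        rw [AddSubgroup.coe_zero, map_zero, map_zero]
        rfl
      map_add' := by
        intro x y
        apply Subtype.ext
        ext j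
        change F (Φ ((x + y : flow (fun j : Col k' => j.1)) : Col k' → ℤ)) j =
          F (Φ x) j + F (Φ y) j
        rw [AddSubgroup.coe_add, map_add, map_add]
        rfl }
  have hφ : ∀ x y : flow (fun j : Col k' => j.1),
      bil (fun j : J' => q j.1.1 j.1.2) (φ x) (φ y) = bil (fun j : Col k' => r j.1 j.2) x y := by
    intro x y
    rw [← hΦdot x y x.2 y.2, hFu _ (hΦU x) _ (hΦU y)]
    unfold bil
    rw [← hsumJ]
    · rfl
    · intro j hj
      rw [hvan _ (AddSubgroup.mem_map_of_mem F (hΦU x)) j hj]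
      ring
  have hφs : Function.Surjective φ := by
    intro y
    -- extension by zero
    set z : Col k → ℤ := fun j =>
      if h : j ∉ Set.range σ ∧ m j.1 + 3 ≤ k j.1 then (y : J' → ℤ) ⟨j, h⟩ else 0 with hz
    have hzy : ∀ j : J', z j = (y : J' → ℤ) j := fun j => by rw [hz]; exact dif_pos j.2
    have hz0 : ∀ j : Col k, ¬ (j ∉ Set.range σ ∧ m j.1 + 3 ≤ k j.1) → z j = 0 := fun j hj => by
      rw [hz]; exact dif_neg hj
    have hzN : z ∈ U.map F := by
      rw [hN]
      refine ⟨fun α => ?_, fun i => hz0 _ fun h' => h'.1 ⟨i, rfl⟩⟩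
      rw [sum_filter, ← hsumJ (fun j => if j.1 = α then z j else 0)]
      · by_cases hα : m α + 3 ≤ k α
        · have h1 := y.2 ⟨α, hα⟩
          rw [sum_filter] at h1
          refine Eq.trans ?_ h1
          apply sum_congr rfl
          intro j _
          by_cases h2 : j.1.1 = α
          · rw [if_pos h2, if_pos (Subtype.ext h2), hzy]
          · rw [if_neg h2, if_neg (fun h' => h2 (congrArg Subtype.val h'))]
        · apply sum_eq_zero
          intro j _
          rw [if_neg]
          intro h2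
          exact hα (h2 ▸ j.2.2)
      · intro j hj
        rw [hz0 j hj]
        split_ifs <;> rfl
    obtain ⟨u, hu, huz⟩ := hzN
    have hex : ∀ u ∈ U, ∃ x : flow (fun j : Col k' => j.1), Φ x = u := by
      intro u hu
      refine AddSubgroup.closure_induction
        (p := fun u _ => ∃ x : flow (fun j : Col k' => j.1), Φ x = u) ?_ ?_ ?_ ?_ hu
      · rintro _ ⟨y, rfl⟩
        exact ⟨⟨gen k' y, root_mem rfl⟩, hΦgen y⟩
      · exact ⟨0, by rw [AddSubgroup.coe_zero, map_zero]⟩
      · rintro _ _ _ _ ⟨x, rfl⟩ ⟨y, rfl⟩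
        exact ⟨x + y, by rw [AddSubgroup.coe_add, map_add]⟩
      · rintro _ _ ⟨x, rfl⟩
        exact ⟨-x, by rw [AddSubgroup.coe_neg, map_neg]⟩
    obtain ⟨x, rfl⟩ := hex u hu
    refine ⟨x, ?_⟩
    apply Subtype.ext
    ext j
    change F (Φ x) j = (y : J' → ℤ) j
    rw [huz, hzy]
  have three' : ∀ β : Fin n', ∃ j₀ j₁ j₂ : Col k',
      j₀.1 = β ∧ j₁.1 = β ∧ j₂.1 = β ∧ j₀ ≠ j₁ ∧ j₀ ≠ j₂ ∧ j₁ ≠ j₂ := by
    intro β
    have := hk' β
    refine ⟨⟨β, ⟨0, by omega⟩⟩, ⟨β, ⟨1, by omega⟩⟩, ⟨β, ⟨2, by omega⟩⟩, rfl, rfl, rfl, ?_, ?_, ?_⟩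
    all_goals
      intro h
      have := (col_eq.1 h).2
      simp at this
  have three : ∀ α : {α // m α + 3 ≤ k α}, ∃ j₀ j₁ j₂ : J',
      st' j₀ = α ∧ st' j₁ = α ∧ st' j₂ = α ∧ j₀ ≠ j₁ ∧ j₀ ≠ j₂ ∧ j₁ ≠ j₂ := by
    rintro ⟨α, hα⟩
    have h1 := hcardU α
    have h2 : 2 < (univ.filter fun j : Col k => j.1 = α ∧ j ∉ Set.range σ).card := by omega
    obtain ⟨a, ha, b, hb, c, hc, hab, hac, hbc⟩ := two_lt_card.1 h2
    rw [mem_filter] at ha hb hc
    have hm : ∀ x : Col k, x.1 = α → m x.1 + 3 ≤ k x.1 := fun x hx => by rw [hx]; exact hα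
    exact ⟨⟨a, ha.2.2, hm a ha.2.1⟩, ⟨b, hb.2.2, hm b hb.2.1⟩, ⟨c, hc.2.2, hm c hc.2.1⟩,
      Subtype.ext ha.2.1, Subtype.ext hb.2.1, Subtype.ext hc.2.1,
      fun h' => hab (congrArg Subtype.val h'), fun h' => hac (congrArg Subtype.val h'),
      fun h' => hbc (congrArg Subtype.val h')⟩
  obtain ⟨π, hπ⟩ := torelli (fun j : J' => qpos j.1) rpos hφ hφs three three'
  refine ⟨π, fun β => ?_⟩
  obtain ⟨ρ, hρ⟩ := hπ β
  let g : {j : J' // st' j = π β} ≃ {c : Col k // c.1 = π β ∧ c ∉ Set.range σ} :=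
    { toFun := fun j => ⟨j.1.1, congrArg Subtype.val j.2, j.1.2.1⟩
      invFun := fun c => ⟨⟨c.1, c.2.2, by rw [c.2.1]; exact (π β).2⟩, Subtype.ext c.2.1⟩
      left_inv := fun j => by
        apply Subtype.ext
        apply Subtype.ext
        rfl
      right_inv := fun c => by
        apply Subtype.ext
        rfl }
  exact ⟨ρ.trans g, fun c => hρ c⟩

end

/-- Let `p_α1, …, p_αm`, `q_α1, …, q_αk` (`m = m_α`, `k = k_α`) be finitely many pairs of sequences
with `k_α = m_α + 1` or `k_α ≥ m_α + 3`, with `q_αj ≥ 3`, `q_αj ≠ 4` and `∑ 1 / p_αi < ∑ 1 / q_αj`,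
and let `r_β1, …, r_βn` be finitely many sequences of positive integers of lengths `≥ 3`, with
`∑ (k_α - m_α - 1) = ∑ (n_β - 1)`. If the sum of the plumbing lattices of the first and of the
Goeritz lattices of the second has an embedding in the standard lattice of the same rank such that
each characteristic vector is congruent modulo twice the image to a vector with all entries `1` or
`-1`, then for each `α` there is an injection `τ` with `p_αi = q_ατ(i)`, and the families of the
numbers `q_αj`, `j` not in the image of `τ`, for the `α` with `k_α ≥ m_α + 3`, are the families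
`(r_βl)` up to a bijection of the indices and bijections of the entries. -/
theorem result (n n' : ℕ) (m k : Fin n → ℕ) (p q : Fin n → ℕ → ℕ) (k' : Fin n' → ℕ)
    (r : Fin n' → ℕ → ℕ) (hk : ∀ α, k α = m α + 1 ∨ m α + 3 ≤ k α) (hk' : ∀ β, 3 ≤ k' β)
    (hq : ∀ α (j : Fin (k α)), 3 ≤ q α j ∧ q α j ≠ 4) (hr : ∀ β (l : Fin (k' β)), 0 < r β l)
    (hA : ∀ α, ∑ i : Fin (m α), 1 / (p α i : ℚ) < ∑ j : Fin (k α), 1 / (q α j : ℚ))
    (hsig : ∑ α, (k α - m α - 1) = ∑ β, (k' β - 1)) (h : Admissible m k p q k' r) :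
    ∃ τ : ∀ α, Fin (m α) → Fin (k α),
      (∀ α, Function.Injective (τ α) ∧ ∀ i : Fin (m α), p α i = q α (τ α i)) ∧
      ∃ π : Fin n' ≃ {α // m α + 3 ≤ k α}, ∀ β,
        ∃ ρ : Fin (k' β) ≃ {j : Fin (k (π β)) // j ∉ Set.range (τ (π β))},
          ∀ l : Fin (k' β), r β l = q (π β) (ρ l) := by
  obtain ⟨σ, hσ, hσ1, π, hπ⟩ := forward hk hk' hq hr hA hsig h
  have h1 : ∀ α (i : Fin (m α)), ∃ j : Fin (k α), σ ⟨α, i⟩ = ⟨α, j⟩ := by
    intro α i
    obtain ⟨h2, _⟩ := hσ1 ⟨α, i⟩
    generalize σ ⟨α, i⟩ = x at h2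
    obtain ⟨β, j⟩ := x
    simp only at h2
    subst h2
    exact ⟨j, rfl⟩
  choose τ hτ using h1
  refine ⟨τ, fun α => ⟨fun i l hil => ?_, fun i => ?_⟩, π, fun β => ?_⟩
  · have h2 : (⟨α, i⟩ : Row m) = ⟨α, l⟩ := hσ (by rw [hτ, hτ, hil])
    exact eq_of_heq (Sigma.mk.inj_iff.1 h2).2
  · have h2 := (hσ1 ⟨α, i⟩).2
    rw [hτ] at h2
    exact h2
  · obtain ⟨ρ, hρ⟩ := hπ β
    have hran : ∀ α (j : Fin (k α)), (⟨α, j⟩ : Col k) ∈ Set.range σ ↔ j ∈ Set.range (τ α) := by
      intro α j
      constructor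
      · rintro ⟨⟨γ, i⟩, hi⟩
        rw [hτ] at hi
        obtain ⟨h2, h3⟩ := Sigma.mk.inj_iff.1 hi
        subst h2
        exact ⟨i, eq_of_heq h3⟩
      · rintro ⟨i, rfl⟩
        exact ⟨⟨α, i⟩, hτ α i⟩
    let f : Fin (k' β) ≃ {c : Col k' // c.1 = β} :=
      (Equiv.sigmaSubtype (β := fun a => Fin (k' a)) β).symm
    let g : {c : Col k // c.1 = (π β : Fin n) ∧ c ∉ Set.range σ} ≃
        {j : Fin (k (π β)) // j ∉ Set.range (τ (π β))} :=
      { toFun := fun c => ⟨c.2.1 ▸ c.1.2, by
          obtain ⟨⟨γ, j⟩, hγ, hj⟩ := c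
          simp only at hγ
          subst hγ
          exact fun h' => hj ((hran _ j).2 h')⟩
        invFun := fun j => ⟨⟨π β, j.1⟩, rfl, fun h' => j.2 ((hran _ j.1).1 h')⟩
        left_inv := by
          rintro ⟨⟨γ, j⟩, hγ, hj⟩
          simp only at hγ
          subst hγ
          rfl
        right_inv := by
          rintro ⟨j, hj⟩
          rfl }
    have hg : ∀ c : {c : Col k // c.1 = (π β : Fin n) ∧ c ∉ Set.range σ},
        q c.1.1 c.1.2 = q (π β) (g c).1 := by
      rintro ⟨⟨γ, j⟩, hγ, hj⟩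
      simp only at hγ
      subst hγ
      rfl
    refine ⟨(f.trans ρ).trans g, fun l => ?_⟩
    have h2 := hρ (f l)
    rw [hg] at h2
    exact h2

end Pool.Agent.Results.MP_177a0e_gt.PretzelSums
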